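import Pool.Agent.Lib.MP_edb5be_nt.ND.Iface2

/-! # Module POP: almost every `M` prime to `3` is reached by a positive proportion of the integers -/

set_option autoImplicit false

namespace Pool.Agent.Lib.MP_edb5be_nt.ND.H65

open Finset Filter Pool.Agent.Lib.MP_0a5adf_nt.TP

/-! ### The densities `Phi` -/

theorem phi_nonneg (m : ℕ) (M : ℤ) : 0 ≤ Phi m M := by
  unfold Phi
  refine mul_nonneg (by positivity) (Finset.sum_nonneg fun c _ => ?_)
  unfold f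
  positivity

theorem phi_congr (m : ℕ) {M M' : ℤ} (h : (M : ZMod (3 ^ m)) = (M' : ZMod (3 ^ m))) :
    Phi m M = Phi m M' := by
  unfold Phi
  rw [h]

theorem phi_mod (m : ℕ) (s : ℤ) (M : ℕ) :
    Phi m (s * (M % 3 ^ m : ℕ)) = Phi m (s * M) := by
  refine phi_congr m ?_
  have h := ZMod.natCast_mod M (3 ^ m)
  rw [Int.cast_mul, Int.cast_mul, Int.cast_natCast, Int.cast_natCast, h]

/-- Number of the integers of a dyadic block in a residue class. -/
theorem fiber_card (q k r : ℕ) (hq : 0 < q) (hqk : q ≤ 2 ^ k) :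
    ((((Ico (2 ^ k) (2 ^ (k + 1))).filter fun M => M % q = r).card : ℕ) : ℝ) ≤
      3 * (2 ^ k / q) := by
  have h1 : ((Ico (2 ^ k) (2 ^ (k + 1))).filter fun M => M % q = r).card ≤
      (Icc (2 ^ k / q) (2 ^ (k + 1) / q)).card := by
    refine Finset.card_le_card_of_injOn (fun M => M / q) ?_ ?_
    · intro M hM
      rw [Finset.mem_coe, Finset.mem_filter, Finset.mem_Ico] at hM
      rw [Finset.mem_coe, Finset.mem_Icc]
      exact ⟨Nat.div_le_div_right hM.1.1, Nat.div_le_div_right hM.1.2.le⟩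
    · intro M hM M' hM' h
      rw [Finset.mem_coe, Finset.mem_filter] at hM hM'
      have h2 : M / q = M' / q := h
      rw [← Nat.div_add_mod M q, ← Nat.div_add_mod M' q, h2, hM.2, hM'.2]
  rw [Nat.card_Icc] at h1
  have hqR : (0 : ℝ) < q := by exact_mod_cast hq
  have h3 : (((2 ^ (k + 1) / q : ℕ) : ℕ) : ℝ) ≤ 2 ^ (k + 1) / q := by
    have := @Nat.cast_div_le ℝ _ _ _ (2 ^ (k + 1)) q
    push_cast at this
    exact this
  have h4 : (2 : ℝ) ^ k / q ≤ ((2 ^ k / q : ℕ) : ℝ) + 1 := by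
    have h5 : 2 ^ k < (2 ^ k / q + 1) * q := by
      have := Nat.lt_div_mul_add (a := 2 ^ k) hq
      nlinarith
    rw [div_le_iff₀ hqR]
    exact_mod_cast h5.le
  have h6 : (1 : ℝ) ≤ 2 ^ k / q := by
    rw [le_div_iff₀ hqR, one_mul]
    exact_mod_cast hqk
  have h7 : ((((Ico (2 ^ k) (2 ^ (k + 1))).filter fun M => M % q = r).card : ℕ) : ℝ) ≤
      ((2 ^ (k + 1) / q + 1 - 2 ^ k / q : ℕ) : ℝ) := by exact_mod_cast h1
  have h8 : 2 ^ k / q ≤ 2 ^ (k + 1) / q + 1 := by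
    have : 2 ^ k / q ≤ 2 ^ (k + 1) / q :=
      Nat.div_le_div_right (Nat.pow_le_pow_right (by norm_num) (Nat.le_succ k))
    omega
  rw [Nat.cast_sub h8] at h7
  push_cast at h7
  have h9 : (2 : ℝ) ^ (k + 1) / q = 2 * (2 ^ k / q) := by rw [pow_succ]; ring
  rw [h9] at h3
  linarith

open Classical in
/-- The filter of a range coerced to the integers through the monad `Finset`. -/
theorem card_filter_monad (n : ℕ) (p : ℤ → Prop) (i₁ : DecidablePred p)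
    (i₂ : DecidablePred fun x : ℕ => p (x : ℤ)) :
    (@Finset.filter ℤ p i₁ (range n)).card = (@Finset.filter ℕ (fun x => p x) i₂ (range n)).card := by
  have h1 : (do
      let a ← range n
      pure (a : ℤ) : Finset ℤ) = (range n).image (fun a : ℕ => (a : ℤ)) := by
    ext x
    simp [Finset.mem_image, eq_comm]
  have hi : i₂ = fun x : ℕ => i₁ (x : ℤ) := Subsingleton.elim _ _
  subst hi
  rw [h1, Finset.filter_image, Finset.card_image_of_injective _ Nat.cast_injective]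

open Classical in
/-- Number of the `M` in a block with `Phi` small. -/
theorem tail_card (d : Bool) (m k : ℕ) (hm : 1 ≤ m) (hmk : 3 ^ m ≤ 2 ^ k) (δ ε : ℝ)
    (h : (((range (3 ^ m)).filter fun x : ℕ => ¬ 3 ∣ x ∧ Phi m (sg d * x) < δ).card : ℝ) ≤
      ε * 3 ^ m) :
    (((Ico (2 ^ k) (2 ^ (k + 1))).filter fun M : ℕ => ¬ 3 ∣ M ∧ Phi m (sg d * M) < δ).card : ℝ) ≤
      3 * ε * 2 ^ k := by
  set A := (Ico (2 ^ k) (2 ^ (k + 1))).filter fun M : ℕ => ¬ 3 ∣ M ∧ Phi m (sg d * M) < δ with hA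
  set R := (range (3 ^ m)).filter fun x : ℕ => ¬ 3 ∣ x ∧ Phi m (sg d * x) < δ with hR
  have h3 : 0 < 3 ^ m := by positivity
  have hmaps : ∀ M ∈ A, M % 3 ^ m ∈ R := by
    intro M hM
    rw [hA, Finset.mem_filter] at hM
    rw [hR, Finset.mem_filter, Finset.mem_range]
    refine ⟨Nat.mod_lt _ h3, ?_, ?_⟩
    · intro hd
      refine hM.2.1 ?_
      have h4 : 3 ∣ 3 ^ m := dvd_pow_self 3 (by omega)
      rw [Nat.dvd_mod_iff h4] at hd
      exact hd
    · rw [phi_mod]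
      exact hM.2.2
  have hcard : (A.card : ℝ) ≤ ∑ r ∈ R, ((A.filter fun M => M % 3 ^ m = r).card : ℝ) := by
    rw [Finset.card_eq_sum_card_fiberwise hmaps]
    push_cast
    exact le_rfl
  have hfib : ∀ r ∈ R, ((A.filter fun M => M % 3 ^ m = r).card : ℝ) ≤ 3 * (2 ^ k / 3 ^ m) := by
    intro r _
    have h5 := fiber_card (3 ^ m) k r h3 hmk
    push_cast at h5
    refine le_trans ?_ h5
    have h6 : (A.filter fun M => M % 3 ^ m = r) ⊆
        (Ico (2 ^ k) (2 ^ (k + 1))).filter fun M => M % 3 ^ m = r := by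
      intro M hM
      rw [Finset.mem_filter] at hM ⊢
      exact ⟨(Finset.mem_filter.1 hM.1).1, hM.2⟩
    exact_mod_cast Finset.card_le_card h6
  have h7 := Finset.sum_le_sum hfib
  rw [Finset.sum_const, nsmul_eq_mul] at h7
  have h8 : (0 : ℝ) < 3 ^ m := by positivity
  calc (A.card : ℝ) ≤ (R.card : ℝ) * (3 * (2 ^ k / 3 ^ m)) := hcard.trans h7
    _ ≤ (ε * 3 ^ m) * (3 * (2 ^ k / 3 ^ m)) := by
        refine mul_le_mul_of_nonneg_right h (by positivity)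
    _ = 3 * ε * 2 ^ k := by
        field_simp

/-! ### Densities -/

theorem fin_of_le {S : Set ℕ} {X : ℝ} (h : ∀ N ∈ S, (N : ℝ) ≤ X) : S.Finite := by
  refine (Set.finite_Iic ⌊X⌋₊).subset fun N hN => ?_
  exact Nat.le_floor (h N hN)

theorem gd_near (B : Set ℕ) (u : ℝ) (hu : 0 ≤ u) :
    |Gd B u * 2 ^ u - (({N : ℕ | N ∈ B ∧ 1 ≤ N ∧ (N : ℝ) ≤ 2 ^ (u + 1)}.ncard : ℝ) -
      ({N : ℕ | N ∈ B ∧ 1 ≤ N ∧ (N : ℝ) ≤ 2 ^ u}.ncard : ℝ))| ≤ 1 := by
  set A : Set ℕ := {N : ℕ | N ∈ B ∧ (2 : ℝ) ^ u ≤ N ∧ (N : ℝ) < 2 ^ (u + 1)} with hA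
  set C₁ : Set ℕ := {N : ℕ | N ∈ B ∧ 1 ≤ N ∧ (N : ℝ) ≤ 2 ^ (u + 1)} with hC₁
  set C₀ : Set ℕ := {N : ℕ | N ∈ B ∧ 1 ≤ N ∧ (N : ℝ) ≤ 2 ^ u} with hC₀
  have hpos : (0 : ℝ) < 2 ^ u := by positivity
  have hone : (1 : ℝ) ≤ 2 ^ u := Real.one_le_rpow (by norm_num) hu
  have hle : (2 : ℝ) ^ u ≤ 2 ^ (u + 1) :=
    Real.rpow_le_rpow_of_exponent_le (by norm_num) (by linarith)
  have hG : Gd B u * 2 ^ u = (A.ncard : ℝ) := by
    unfold Gd
    rw [← hA]
    field_simp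
  have fA : A.Finite := fin_of_le (X := (2 : ℝ) ^ (u + 1)) fun N hN => hN.2.2.le
  have fC₁ : C₁.Finite := fin_of_le (X := (2 : ℝ) ^ (u + 1)) fun N hN => hN.2.2
  have fC₀ : C₀.Finite := fin_of_le (X := (2 : ℝ) ^ u) fun N hN => hN.2.2
  have h1 : C₁.ncard ≤ C₀.ncard + A.ncard + 1 := by
    have hs : C₁ ⊆ (C₀ ∪ A) ∪ {⌊(2 : ℝ) ^ (u + 1)⌋₊} := by
      rintro N ⟨hB, hN1, hN2⟩
      by_cases hc : (N : ℝ) ≤ 2 ^ u
      · exact Or.inl (Or.inl ⟨hB, hN1, hc⟩)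
      · by_cases hc2 : (N : ℝ) < 2 ^ (u + 1)
        · exact Or.inl (Or.inr ⟨hB, (not_le.1 hc).le, hc2⟩)
        · right
          have h3 : (2 : ℝ) ^ (u + 1) = N := le_antisymm (not_lt.1 hc2) hN2
          rw [Set.mem_singleton_iff, h3, Nat.floor_natCast]
    calc C₁.ncard ≤ ((C₀ ∪ A) ∪ {⌊(2 : ℝ) ^ (u + 1)⌋₊}).ncard :=
          Set.ncard_le_ncard hs ((fC₀.union fA).union (Set.finite_singleton _))
      _ ≤ (C₀ ∪ A).ncard + ({⌊(2 : ℝ) ^ (u + 1)⌋₊} : Set ℕ).ncard := Set.ncard_union_le _ _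
      _ ≤ C₀.ncard + A.ncard + 1 := by
          rw [Set.ncard_singleton]
          exact Nat.add_le_add_right (Set.ncard_union_le _ _) 1
  have h2 : C₀.ncard + A.ncard ≤ C₁.ncard + 1 := by
    have h3 := Set.ncard_union_add_ncard_inter C₀ A fC₀ fA
    have h4 : (C₀ ∪ A).ncard ≤ C₁.ncard := by
      refine Set.ncard_le_ncard ?_ fC₁
      rintro N (⟨hB, hN1, hN2⟩ | ⟨hB, hN1, hN2⟩)
      · exact ⟨hB, hN1, hN2.trans hle⟩
      · refine ⟨hB, ?_, hN2.le⟩
        have h5 : (1 : ℝ) ≤ N := hone.trans hN1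
        exact_mod_cast h5
    have h5 : (C₀ ∩ A).ncard ≤ 1 := by
      have hs : C₀ ∩ A ⊆ {⌊(2 : ℝ) ^ u⌋₊} := by
        rintro N ⟨⟨_, _, hN2⟩, ⟨_, hN3, _⟩⟩
        have h6 : (2 : ℝ) ^ u = N := le_antisymm hN3 hN2
        rw [Set.mem_singleton_iff, h6, Nat.floor_natCast]
      calc (C₀ ∩ A).ncard ≤ ({⌊(2 : ℝ) ^ u⌋₊} : Set ℕ).ncard :=
            Set.ncard_le_ncard hs (Set.finite_singleton _)
        _ = 1 := Set.ncard_singleton _
    omega
  rw [hG, abs_le]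
  have h1' : (C₁.ncard : ℝ) ≤ C₀.ncard + A.ncard + 1 := by exact_mod_cast h1
  have h2' : (C₀.ncard : ℝ) + A.ncard ≤ C₁.ncard + 1 := by exact_mod_cast h2
  constructor <;> linarith

theorem tendsto_gd {B : Set ℕ} {D : ℝ} (h : HasDensN B D) :
    Tendsto (Gd B) atTop (nhds D) := by
  set c : ℝ → ℝ := fun X => ({N : ℕ | N ∈ B ∧ 1 ≤ N ∧ (N : ℝ) ≤ X}.ncard : ℝ) with hc
  have hD : Tendsto (fun X : ℝ => c X / X) atTop (nhds D) := h
  have hp : Tendsto (fun u : ℝ => (2 : ℝ) ^ u) atTop atTop :=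
    tendsto_rpow_atTop_of_base_gt_one 2 (by norm_num)
  have h0 : Tendsto (fun u : ℝ => c (2 ^ u) / 2 ^ u) atTop (nhds D) := hD.comp hp
  have h1 : Tendsto (fun u : ℝ => c (2 ^ (u + 1)) / 2 ^ (u + 1)) atTop (nhds D) :=
    h0.comp (tendsto_atTop_add_const_right atTop 1 tendsto_id)
  have h2 : Tendsto (fun u : ℝ => 2 * (c (2 ^ (u + 1)) / 2 ^ (u + 1)) - c (2 ^ u) / 2 ^ u)
      atTop (nhds (2 * D - D)) := (h1.const_mul 2).sub h0
  have h3 : Tendsto (fun u : ℝ => (1 : ℝ) / 2 ^ u) atTop (nhds 0) := hp.const_div_atTop 1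
  have h4 : Tendsto (fun u : ℝ => Gd B u -
      (2 * (c (2 ^ (u + 1)) / 2 ^ (u + 1)) - c (2 ^ u) / 2 ^ u)) atTop (nhds 0) := by
    refine squeeze_zero_norm' ?_ h3
    filter_upwards [eventually_ge_atTop (0 : ℝ)] with u hu
    have h5 := gd_near B u hu
    have hpos : (0 : ℝ) < 2 ^ u := by positivity
    have h6 : Gd B u - (2 * (c (2 ^ (u + 1)) / 2 ^ (u + 1)) - c (2 ^ u) / 2 ^ u) =
        (Gd B u * 2 ^ u - (c (2 ^ (u + 1)) - c (2 ^ u))) / 2 ^ u := by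
      have h7 : (2 : ℝ) ^ (u + 1) = 2 ^ u * 2 := by rw [Real.rpow_add (by norm_num), Real.rpow_one]
      rw [h7]
      field_simp
    rw [h6, Real.norm_eq_abs, abs_div, abs_of_pos hpos]
    exact div_le_div_of_nonneg_right h5 hpos.le
  have h5 := h4.add h2
  have h6 : (0 : ℝ) + (2 * D - D) = D := by ring
  rw [h6] at h5
  refine h5.congr fun u => ?_
  ring

/-! ### The sets `Hit` -/

theorem hit_inv (d : Bool) (k : ℕ) (E : Set ℕ) (hE : ∀ M ∈ E, M < 2 ^ (k + 1)) :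
    InvA d (Hit d E) (k + 1) := by
  intro n hn
  constructor
  · rintro ⟨i, hi⟩
    cases i with
    | zero => exact absurd (hE n hi) (not_lt.2 hn)
    | succ i => exact ⟨i, hi⟩
  · rintro ⟨i, hi⟩
    exact ⟨i + 1, hi⟩

theorem gd_union (B B' : Set ℕ) (u : ℝ) : Gd (B ∪ B') u ≤ Gd B u + Gd B' u := by
  unfold Gd
  rw [← add_div]
  refine div_le_div_of_nonneg_right ?_ (by positivity)
  have h1 : {N : ℕ | N ∈ B ∪ B' ∧ (2 : ℝ) ^ u ≤ N ∧ (N : ℝ) < 2 ^ (u + 1)} =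
      {N : ℕ | N ∈ B ∧ (2 : ℝ) ^ u ≤ N ∧ (N : ℝ) < 2 ^ (u + 1)} ∪
        {N : ℕ | N ∈ B' ∧ (2 : ℝ) ^ u ≤ N ∧ (N : ℝ) < 2 ^ (u + 1)} := by
    ext N
    simp only [Set.mem_union, Set.mem_ofPred_eq]
    tauto
  rw [h1]
  exact_mod_cast Set.ncard_union_le _ _

theorem gd_hit_le (d : Bool) (E : Finset ℕ) (u : ℝ) :
    Gd (Hit d E) u ≤ ∑ M ∈ E, Gd (Hit d {M}) u := by
  classical
  induction E using Finset.induction_on with
  | empty =>
    rw [Finset.sum_empty]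
    have h1 : {N : ℕ | N ∈ Hit d ((∅ : Finset ℕ) : Set ℕ) ∧ (2 : ℝ) ^ u ≤ N ∧
        (N : ℝ) < 2 ^ (u + 1)} = ∅ := by
      ext N
      simp only [Set.mem_ofPred_eq, Set.mem_empty_iff_false, iff_false]
      rintro ⟨⟨i, hi⟩, -⟩
      rw [Finset.coe_empty] at hi
      exact hi
    unfold Gd
    rw [h1, Set.ncard_empty, Nat.cast_zero, zero_div]
  | insert a E ha ih =>
    rw [Finset.sum_insert ha]
    have h1 : Hit d ((insert a E : Finset ℕ) : Set ℕ) = Hit d {a} ∪ Hit d (E : Set ℕ) := by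
      ext N
      constructor
      · rintro ⟨i, hi⟩
        rw [Finset.coe_insert] at hi
        rcases hi with hi | hi
        · exact Or.inl ⟨i, hi⟩
        · exact Or.inr ⟨i, hi⟩
      · rintro (⟨i, hi⟩ | ⟨i, hi⟩)
        · exact ⟨i, by rw [Finset.coe_insert]; exact Or.inl hi⟩
        · exact ⟨i, by rw [Finset.coe_insert]; exact Or.inr hi⟩
    rw [h1]
    exact (gd_union _ _ u).trans (add_le_add le_rfl ih)

/-! ### The theorem -/

theorem three_pow_le (m k : ℕ) (h : m = k / 100) : 3 ^ m ≤ 2 ^ k := by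
  have h1 : 2 * m ≤ k := by omega
  calc 3 ^ m ≤ 4 ^ m := Nat.pow_le_pow_left (by norm_num) m
    _ = 2 ^ (2 * m) := by rw [pow_mul]; norm_num
    _ ≤ 2 ^ k := Nat.pow_le_pow_right (by norm_num) h1

open Classical in
/-- POP. Almost every `M` prime to `3` is reached by a positive proportion of all integers. -/
theorem pop (hhit : HitStatement) (htail : TailPStatement) (hconv : ConvStatement) :
    PopStatement := by
  intro ε hε
  obtain ⟨δ', hδ', m₀, htail'⟩ := htail (ε / 6) (by positivity)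
  obtain ⟨c, C, k₀, hc, hC, hhit'⟩ := hhit
  obtain ⟨C', u₀, hC', hconv'⟩ := hconv
  set φ := ε / 2 * δ' with hφ
  have hφ0 : 0 < φ := by positivity
  set η := c * (φ / 2) ^ 2 / 2 with hη
  have hη0 : 0 < η := by positivity
  -- the conditions on `k`
  have hz : Tendsto (fun k : ℕ => ((121 * k / 100 + 1 : ℕ) : ℝ)) atTop atTop := by
    refine tendsto_atTop_mono (fun k => ?_) tendsto_natCast_atTop_atTop
    have : k ≤ 121 * k / 100 + 1 := by omega
    exact_mod_cast this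
  have e1 : ∀ᶠ k : ℕ in atTop, C / (k : ℝ) ≤ φ / 2 :=
    ((tendsto_natCast_atTop_atTop (R := ℝ)).const_div_atTop C).eventually_le_const (by positivity)
  have e2 : ∀ᶠ k : ℕ in atTop, C' * ((121 * k / 100 + 1 : ℕ) : ℝ) ^ (-(1 / 38) : ℝ) < η := by
    have h1 : Tendsto (fun x : ℝ => C' * x ^ (-(1 / 38) : ℝ)) atTop (nhds (C' * 0)) :=
      (tendsto_rpow_neg_atTop (by norm_num)).const_mul C'
    rw [mul_zero] at h1
    exact (h1.comp hz).eventually_lt_const hη0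
  have e3 : ∀ᶠ k : ℕ in atTop, u₀ ≤ ((121 * k / 100 + 1 : ℕ) : ℝ) := hz.eventually_ge_atTop u₀
  obtain ⟨k₁, hk₁⟩ := Filter.eventually_atTop.1 (e1.and (e2.and e3))
  refine ⟨η, hη0, max (max k₀ k₁) (max (100 * (m₀ + 1)) 300), fun d k hk => ?_⟩
  have hk0 : k₀ ≤ k := le_trans (le_trans (le_max_left _ _) (le_max_left _ _)) hk
  have hk1 : k₁ ≤ k := le_trans (le_trans (le_max_right _ _) (le_max_left _ _)) hk
  have hk2 : 100 * (m₀ + 1) ≤ k := le_trans (le_trans (le_max_left _ _) (le_max_right _ _)) hk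
  have hk3 : 300 ≤ k := le_trans (le_trans (le_max_right _ _) (le_max_right _ _)) hk
  obtain ⟨f1, f2, f3⟩ := hk₁ k hk1
  obtain ⟨m, hm⟩ : ∃ m, m = k / 100 := ⟨_, rfl⟩
  obtain ⟨z, hzk⟩ : ∃ z, z = 121 * k / 100 + 1 := ⟨_, rfl⟩
  rw [← hzk] at f2 f3
  have hm1 : 1 ≤ m := by omega
  have hmm₀ : m₀ ≤ m := by omega
  have hmk : 3 ^ m ≤ 2 ^ k := three_pow_le m k hm
  -- the exceptional set
  set S : Set ℕ := {M : ℕ | 2 ^ k ≤ M ∧ M < 2 ^ (k + 1) ∧ ¬ 3 ∣ M ∧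
      ∃ D : ℝ, HasDensN (Hit d {M}) D ∧ D < η / 2 ^ k} with hS
  set E : Finset ℕ := (Ico (2 ^ k) (2 ^ (k + 1))).filter fun M => M ∈ S with hE
  have hES : (E : Set ℕ) = S := by
    ext M
    rw [hE, Finset.coe_filter]
    constructor
    · rintro ⟨-, h⟩
      exact h
    · intro h
      exact ⟨Finset.mem_Ico.2 ⟨h.1, h.2.1⟩, h⟩
  have hcardS : (S.ncard : ℝ) = E.card := by
    rw [← hES, Set.ncard_coe_finset]
  rw [hcardS]
  have hEblk : E ⊆ blk k 1 := Finset.filter_subset _ _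
  have hElt : ∀ M ∈ (E : Set ℕ), M < 2 ^ (k + 1) := by
    intro M hM
    rw [hES] at hM
    exact hM.2.1
  have hEcard : (E.card : ℝ) ≤ 2 ^ k := by
    have h1 := Finset.card_le_card hEblk
    unfold blk at h1
    rw [Nat.card_Ico, pow_succ] at h1
    have h2 : E.card ≤ 2 ^ k := by omega
    exact_mod_cast h2
  -- the densities
  have hD : ∀ M ∈ E, ∃ D : ℝ, HasDensN (Hit d {M}) D ∧ D < η / 2 ^ k := by
    intro M hM
    have h1 : M ∈ S := by rw [← hES]; exact hM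
    exact h1.2.2.2
  choose! DD hDD1 hDD2 using hD
  obtain ⟨DE, -, -, hDE⟩ := hconv' d (Hit d E) (k + 1) (hit_inv d k _ hElt)
  have hlim : Tendsto (Gd (Hit d E)) atTop (nhds DE) := by
    have h1 : Tendsto (fun u : ℝ => C' * u ^ (-(1 / 38) : ℝ)) atTop (nhds 0) := by
      have h2 := (tendsto_rpow_neg_atTop (y := (1 / 38 : ℝ)) (by norm_num)).const_mul C'
      rwa [mul_zero] at h2
    have h2 : Tendsto (fun u : ℝ => Gd (Hit d E) u - DE) atTop (nhds 0) := by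
      refine squeeze_zero_norm' ?_ h1
      filter_upwards [eventually_ge_atTop u₀,
        eventually_ge_atTop (((k + 1 : ℕ) : ℝ) / (83 / 100))] with u hu1 hu2
      rw [Real.norm_eq_abs]
      refine hDE u hu1 ?_
      rw [div_le_iff₀ (by norm_num)] at hu2
      linarith
    have h3 := h2.add_const DE
    simp only [sub_add_cancel, zero_add] at h3
    exact h3
  have hDE2 : DE ≤ ∑ M ∈ E, DD M := by
    refine le_of_tendsto_of_tendsto' hlim
      (tendsto_finsetSum E fun M hM => tendsto_gd (hDD1 M hM)) fun u => ?_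
    exact gd_hit_le d E u
  have hDE3 : DE ≤ η := by
    have h1 : ∑ M ∈ E, DD M ≤ ∑ _M ∈ E, η / 2 ^ k :=
      Finset.sum_le_sum fun M hM => (hDD2 M hM).le
    rw [Finset.sum_const, nsmul_eq_mul] at h1
    have h2 : (E.card : ℝ) * (η / 2 ^ k) ≤ 2 ^ k * (η / 2 ^ k) :=
      mul_le_mul_of_nonneg_right hEcard (by positivity)
    have h3 : (2 : ℝ) ^ k * (η / 2 ^ k) = η := by field_simp
    linarith
  -- the average of `Phi` over `E` is small
  set P := ∑ M ∈ E, Phi m (sg d * M) with hP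
  have hPle : P / 2 ^ k ≤ φ := by
    by_contra hcon
    rw [not_le] at hcon
    have h1 := hhit' d k z m E hk0 hEblk hzk hm
    have h2 : Gd (Hit d E) z ≤ DE + C' * (z : ℝ) ^ (-(1 / 38) : ℝ) := by
      have h3 := hDE z f3 (by
        have h4 : 121 * k ≤ 100 * z := by omega
        have h5 : (121 : ℝ) * k ≤ 100 * z := by exact_mod_cast h4
        have h6 : (300 : ℝ) ≤ k := by exact_mod_cast hk3
        push_cast
        linarith)
      have h4 := (abs_le.1 h3).2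
      linarith
    have h3 : φ / 2 ≤ max 0 (P / 2 ^ k - C / k) := by
      refine le_trans ?_ (le_max_right _ _)
      linarith
    have h4 : c * (φ / 2) ^ 2 ≤ c * max 0 (P / 2 ^ k - C / k) ^ 2 :=
      mul_le_mul_of_nonneg_left (pow_le_pow_left₀ (by positivity) h3 2) hc.le
    have h5 : c * (φ / 2) ^ 2 = 2 * η := by rw [hη]; ring
    linarith
  -- counting
  have hsplit : (E.card : ℝ) ≤
      (((Ico (2 ^ k) (2 ^ (k + 1))).filter fun M : ℕ => ¬ 3 ∣ M ∧ Phi m (sg d * M) < δ').card : ℝ) +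
        ((E.filter fun M : ℕ => δ' ≤ Phi m (sg d * M)).card : ℝ) := by
    have h1 : E ⊆ ((Ico (2 ^ k) (2 ^ (k + 1))).filter fun M : ℕ =>
        ¬ 3 ∣ M ∧ Phi m (sg d * M) < δ') ∪ (E.filter fun M : ℕ => δ' ≤ Phi m (sg d * M)) := by
      intro M hM
      have h2 : M ∈ S := by rw [← hES]; exact hM
      rw [Finset.mem_union, Finset.mem_filter, Finset.mem_filter]
      by_cases h3 : δ' ≤ Phi m (sg d * M)
      · exact Or.inr ⟨hM, h3⟩
      · exact Or.inl ⟨Finset.mem_Ico.2 ⟨h2.1, h2.2.1⟩, h2.2.2.1, not_le.1 h3⟩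
    exact_mod_cast (Finset.card_le_card h1).trans (Finset.card_union_le _ _)
  have htl := tail_card d m k hm1 hmk δ' (ε / 6) (by
    have h1 := htail' d m hmm₀
    rw [card_filter_monad (3 ^ m) (fun x : ℤ => ¬ 3 ∣ x ∧ Phi m (sg d * x) < δ') _
      (fun x => inferInstance)] at h1
    refine le_trans (le_of_eq ?_) h1
    have h2 : ∀ x : ℕ, (3 : ℤ) ∣ (x : ℤ) ↔ 3 ∣ x := fun x => by
      exact_mod_cast Int.natCast_dvd_natCast
    refine congrArg (fun s : Finset ℕ => (s.card : ℝ)) ?_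
    ext x
    rw [Finset.mem_filter, Finset.mem_filter, h2])
  have hmark : ((E.filter fun M : ℕ => δ' ≤ Phi m (sg d * M)).card : ℝ) * δ' ≤ P := by
    calc ((E.filter fun M : ℕ => δ' ≤ Phi m (sg d * M)).card : ℝ) * δ'
        = ∑ _M ∈ E.filter fun M : ℕ => δ' ≤ Phi m (sg d * M), δ' := by
          rw [Finset.sum_const, nsmul_eq_mul]
      _ ≤ ∑ M ∈ E.filter fun M : ℕ => δ' ≤ Phi m (sg d * M), Phi m (sg d * M) :=
          Finset.sum_le_sum fun M hM => (Finset.mem_filter.1 hM).2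
      _ ≤ P := Finset.sum_le_sum_of_subset_of_nonneg (Finset.filter_subset _ _)
          fun M _ _ => phi_nonneg m _
  have hP2 : P ≤ φ * 2 ^ k := by
    rwa [div_le_iff₀ (by positivity)] at hPle
  have hfin : ((E.filter fun M : ℕ => δ' ≤ Phi m (sg d * M)).card : ℝ) ≤ ε / 2 * 2 ^ k := by
    have h1 : ((E.filter fun M : ℕ => δ' ≤ Phi m (sg d * M)).card : ℝ) * δ' ≤
        (ε / 2 * 2 ^ k) * δ' := by
      refine (hmark.trans hP2).trans (le_of_eq ?_)
      rw [hφ]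
      ring
    exact le_of_mul_le_mul_right h1 hδ'
  calc (E.card : ℝ) ≤ 3 * (ε / 6) * 2 ^ k + ε / 2 * 2 ^ k :=
        hsplit.trans (add_le_add htl hfin)
    _ = ε * 2 ^ k := by ring

end Pool.Agent.Lib.MP_edb5be_nt.ND.H65
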